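import Pool.Agent.H717.PR.Stm

/-!
# The tree from interval data
-/

set_option autoImplicit false

namespace Pool.Agent.H294.PR

open Pool.Agent.H717.PR
open Pool.Agent.TH667.PCG (LeafTree hubD realize)

lemma two_max (x y : ℤ) : 2 * ((max x y : ℤ) : ℝ) = x + y + |(x : ℝ) - y| := by
  rw [Int.cast_max]
  rcases le_total (x : ℝ) y with h | h
  · rw [max_eq_right h, abs_of_nonpos (by linarith)]
    ring
  · rw [max_eq_left h, abs_of_nonneg (by linarith)]
    ring

theorem t_real : S_real := by
  intro V R _ _ st A B l r K hlr hst h3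
  classical
  obtain ⟨pos, hpos⟩ : ∃ pos : {v : V // st v = none} ⊕ R → ℤ,
    pos = Sum.elim (fun v => A v.1 + B v.1) (fun s => l s + r s) := ⟨_, rfl⟩
  have hpl : ∀ v (h : st v = none), pos (Sum.inl ⟨v, h⟩) = A v + B v := by
    intro v h
    rw [hpos]
    rfl
  have hpr : ∀ s, pos (Sum.inr s) = l s + r s := by
    intro s
    rw [hpos]
    rfl
  obtain ⟨v1, w1, hv1, hw1, hvw⟩ := h3
  have : Nonempty ({v : V // st v = none} ⊕ R) := ⟨Sum.inl ⟨v1, hv1⟩⟩
  obtain ⟨x0, hx0⟩ := Finite.exists_min pos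
  obtain ⟨x1, hx1⟩ := Finite.exists_max pos
  obtain ⟨L, hL⟩ : ∃ L : ℕ, L = (pos x1 - pos x0).toNat := ⟨_, rfl⟩
  have hL1 : 1 ≤ L := by
    have a1 := hx0 (Sum.inl ⟨v1, hv1⟩)
    have a2 := hx1 (Sum.inl ⟨v1, hv1⟩)
    have a3 := hx0 (Sum.inl ⟨w1, hw1⟩)
    have a4 := hx1 (Sum.inl ⟨w1, hw1⟩)
    rw [hpl] at a1 a2 a3 a4
    omega
  obtain ⟨idx, hidx⟩ : ∃ idx : ℤ → Fin (L + 1), ∀ z, pos x0 ≤ z → z ≤ pos x1 →
      ((idx z).1 : ℤ) = z - pos x0 := by
    refine ⟨fun z => ⟨min (z - pos x0).toNat L, by omega⟩, fun z h1 h2 => ?_⟩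
    simp only
    omega
  have hid : ∀ x, ((idx (pos x)).1 : ℝ) = (pos x : ℝ) - pos x0 := by
    intro x
    have h := hidx (pos x) (hx0 x) (hx1 x)
    have h' : (((idx (pos x)).1 : ℤ) : ℝ) = ((pos x - pos x0 : ℤ) : ℝ) := by rw [h]
    push_cast at h'
    exact h'
  obtain ⟨C, hC⟩ : ∃ C : ℝ, ∀ v, ((B v - A v : ℤ) : ℝ) ≤ C := by
    obtain ⟨C, hC⟩ := (Set.finite_range fun v => ((B v - A v : ℤ) : ℝ)).bddAbove
    exact ⟨C, fun v => hC ⟨v, rfl⟩⟩
  obtain ⟨H, hH⟩ : ∃ H : ℝ, H = max K (max C 0) + 1 := ⟨_, rfl⟩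
  have hHK : K ≤ H := by
    have := le_max_left K (max C 0)
    linarith
  have hHC : C < H := by
    have h1 := le_max_right K (max C 0)
    have h2 := le_max_left C 0
    linarith
  have hH0 : 0 < H := by
    have h1 := le_max_right K (max C 0)
    have h2 := le_max_right C 0
    linarith
  obtain ⟨att, hatt⟩ : ∃ att : V → Fin (L + 1) ⊕ R,
      att = fun v => (st v).elim (Sum.inl (idx (A v + B v))) Sum.inr := ⟨_, rfl⟩
  have att0 : ∀ v, st v = none → att v = Sum.inl (idx (A v + B v)) := by
    intro v h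
    rw [hatt]
    simp only [h, Option.elim]
  have att1 : ∀ v s, st v = some s → att v = Sum.inr s := by
    intro v s h
    rw [hatt]
    simp only [h, Option.elim]
  obtain ⟨len, hlen⟩ : ∃ len : V → ℝ,
      len = fun v => (st v).elim (H - ((B v - A v : ℤ) : ℝ)) (fun _ => H) := ⟨_, rfl⟩
  have len0 : ∀ v, st v = none → len v = H - ((B v - A v : ℤ) : ℝ) := by
    intro v h
    rw [hlen]
    simp only [h, Option.elim]
  have len1 : ∀ v s, st v = some s → len v = H := by
    intro v s h
    rw [hlen]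
    simp only [h, Option.elim]
  have hend' : ∀ x, (∃ v, att v = Sum.inl (idx (pos x))) ∨
      ∃ s, (fun s => idx (l s + r s)) s = idx (pos x) := by
    intro x
    rcases x with ⟨v, hv⟩ | s
    · left
      refine ⟨v, ?_⟩
      rw [att0 v hv, hpl]
    · right
      refine ⟨s, ?_⟩
      rw [hpr]
  obtain ⟨t, ht⟩ := realize (V := V) (R := R) hL1 (c := 1) one_pos (fun s => idx (l s + r s))
    (fun s => ((r s - l s : ℤ) : ℝ)) (by
      intro s
      have := hlr s
      have h : (0 : ℤ) < r s - l s := by omega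
      exact_mod_cast h) att len (by
      intro v
      rcases h : st v with _ | s
      · rw [len0 v h]
        have := hC v
        linarith
      · rw [len1 v s h]
        exact hH0) (by
      intro s
      obtain ⟨v, hv⟩ := hst s
      exact ⟨v, att1 v s hv⟩) (by
      intro i hi
      rcases hi with hi | hi
      · have e : idx (pos x0) = i := by
          have h := hidx (pos x0) le_rfl (hx1 x0)
          apply Fin.ext
          omega
        rw [← e]
        exact hend' x0
      · have e : idx (pos x1) = i := by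
          have h := hidx (pos x1) (hx0 x1) le_rfl
          have h' := hx0 x1
          apply Fin.ext
          omega
        rw [← e]
        exact hend' x1)
  refine ⟨t, H, hHK, ?_, ?_, ?_, ?_⟩
  · intro u v huv hu hv
    have eu := hid (Sum.inl ⟨u, hu⟩)
    have ev := hid (Sum.inl ⟨v, hv⟩)
    rw [hpl] at eu ev
    rw [ht u v huv, len0 u hu, len0 v hv, att0 u hu, att0 v hv, two_max]
    simp only [hubD, eu, ev]
    push_cast
    have e : (A u : ℝ) + B u - pos x0 - (A v + B v - pos x0) = (A u - B v) - (A v - B u) := by ring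
    rw [e]
    ring
  · intro u v s hu hv
    have huv : u ≠ v := by
      rintro rfl
      rw [hu] at hv
      exact Option.some_ne_none _ hv
    have eu := hid (Sum.inr s)
    have ev := hid (Sum.inl ⟨v, hv⟩)
    rw [hpr] at eu
    rw [hpl] at ev
    rw [ht u v huv, len1 u s hu, len0 v hv, att1 u s hu, att0 v hv, two_max]
    simp only [hubD, eu, ev]
    push_cast
    have e : (l s : ℝ) + r s - pos x0 - (A v + B v - pos x0) = (r s - B v) - (A v - l s) := by ring
    rw [e]
    ring
  · intro u v s huv hu hv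
    rw [ht u v huv, len1 u s hu, len1 v s hv, att1 u s hu, att1 v s hv]
    simp only [hubD, if_true]
    ring
  · intro u v s s' hss hu hv
    have huv : u ≠ v := by
      rintro rfl
      rw [hu] at hv
      exact hss (Option.some_injective _ hv)
    rw [ht u v huv, len1 u s hu, len1 v s' hv, att1 u s hu, att1 v s' hv]
    simp only [hubD, if_neg hss]
    push_cast
    have h := abs_nonneg (((idx (l s + r s)).1 : ℝ) - ((idx (l s' + r s')).1 : ℝ))
    linarith

end Pool.Agent.H294.PR
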